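import Pool.Agent.helper41.G5.SpecG

/-!
# Row d2:gPERT (MP_5823cb_al, analytic part of the static gap), helper67

Perturbation of the gap of a family.
-/

set_option autoImplicit false

open Filter Topology MeasureTheory
open scoped commutatorElement

namespace Pool.Agent.helper90.DH

open Pool.Agent.helper64.D2

theorem gPERT_nl (hNIB : gNIB_stmt) (g : DD) (hg : Sz g (1 / 100)) : NL (ev g) := by
  intro x y hxy
  have h := (hNIB g (1 / 100) (by norm_num) hg).2.2 y x
  rw [abs_of_nonneg (sub_nonneg.2 hxy)] at h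
  have h' := abs_le.1 h
  have hd : 0 ≤ y - x := sub_nonneg.2 hxy
  constructor <;> nlinarith [h'.1, h'.2, hd]

theorem gPERT_nsq_nonneg (f : ℝ → ℝ) : 0 ≤ nsq f := integral_nonneg (fun _ => sq_nonneg _)

/-- **gPERT**. -/
theorem gPERT (hNIB : gNIB_stmt) (hL2T : gL2T_stmt) (hFNC : gFNC_stmt) (hJMP : gJMP_stmt) : PERT_stmt := by
  obtain ⟨K, hK1, hJ⟩ := hJMP
  refine ⟨K, hK1, ?_⟩
  intro q m φ c c' s lam η hSz hlam hη hη1 hcc hFG f hPA hSu hEs
  have hK0 : 0 ≤ K := by linarith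
  have hn0 : 0 ≤ nsq f := gPERT_nsq_nonneg f
  have hfam : ∀ i ∈ fam q m φ, i < q ∧ i % m = φ := by
    intro i hi
    have h := Finset.mem_filter.1 hi
    exact ⟨Finset.mem_range.1 h.1, h.2⟩
  rcases (fam q m φ).eq_empty_or_nonempty with hemp | hne
  · have h0 : nsq (Tf q m φ c' f) = 0 := by
      have h1 : ∀ x, Tf q m φ c' f x ^ 2 = 0 := by
        intro x
        unfold Tf
        rw [hemp]
        simp
      unfold nsq
      rw [integral_congr_ae (Eventually.of_forall h1)]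
      simp
    rw [h0]
    exact mul_nonneg (sq_nonneg _) hn0
  · -- the maps
    have hNL : ∀ i < q, NL (ev (c i)) := fun i hi => gPERT_nl hNIB _ (hSz i hi).1
    have hNL' : ∀ i < q, NL (ev (c' i)) := fun i hi => gPERT_nl hNIB _ (hSz i hi).2
    have hM : ∀ i < q, MemLp (fun x => f (ev (c i) x)) 2 volume := by
      intro i hi
      have h := hFNC (s + 1) f (ev (c i)) hPA hSu (hNL i hi)
      exact h.2.2.2.2.2.1
    have hM' : ∀ i < q, MemLp (fun x => f (ev (c' i) x)) 2 volume := by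
      intro i hi
      have h := hFNC (s + 1) f (ev (c' i)) hPA hSu (hNL' i hi)
      exact h.2.2.2.2.2.1
    have hAM : ∀ i ∈ fam q m φ, MemLp (fun x => f (ev (c' i) x) - f (ev (c i) x)) 2 volume ∧
        nsq (fun x => f (ev (c' i) x) - f (ev (c i) x)) ≤ K * η * nsq f := by
      intro i hi
      obtain ⟨hi1, hi2⟩ := hfam i hi
      exact ⟨(hM' i hi1).sub (hM i hi1),
        hJ s η (ev (c i)) (ev (c' i)) f hη hη1 (hNL i hi1) (hNL' i hi1) (hcc i hi1 hi2) hPA hSu⟩
    have hAv : nsq (fun x => (∑ i ∈ fam q m φ, (f (ev (c' i) x) - f (ev (c i) x))) / (fam q m φ).card) ≤ K * η * nsq f :=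
      hL2T.2 ℕ (fam q m φ) (fun i x => f (ev (c' i) x) - f (ev (c i) x)) (K * η * nsq f) hne hAM
    have hAvM : MemLp (fun x => (∑ i ∈ fam q m φ, (f (ev (c' i) x) - f (ev (c i) x))) / ((fam q m φ).card : ℝ)) 2 volume := by
      have h1 : MemLp (fun x => ∑ i ∈ fam q m φ, (f (ev (c' i) x) - f (ev (c i) x))) 2 volume :=
        memLp_finsetSum _ (fun i hi => (hAM i hi).1)
      have h2 := h1.const_mul (((fam q m φ).card : ℝ)⁻¹)
      have e : (fun x => (∑ i ∈ fam q m φ, (f (ev (c' i) x) - f (ev (c i) x))) / ((fam q m φ).card : ℝ)) =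
          (fun x => ((fam q m φ).card : ℝ)⁻¹ * ∑ i ∈ fam q m φ, (f (ev (c' i) x) - f (ev (c i) x))) := by
        funext x
        rw [div_eq_inv_mul]
      rw [e]
      exact h2
    have hTM : MemLp (Tf q m φ c f) 2 volume := by
      have h1 : MemLp (fun x => ∑ i ∈ fam q m φ, f (ev (c i) x)) 2 volume :=
        memLp_finsetSum _ (fun i hi => hM i (hfam i hi).1)
      have h2 := h1.const_mul (((fam q m φ).card : ℝ)⁻¹)
      have e : Tf q m φ c f = (fun x => ((fam q m φ).card : ℝ)⁻¹ * ∑ i ∈ fam q m φ, f (ev (c i) x)) := by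
        funext x
        unfold Tf
        rw [div_eq_inv_mul]
      rw [e]
      exact h2
    have hsplit : Tf q m φ c' f = fun x => Tf q m φ c f x +
        (∑ i ∈ fam q m φ, (f (ev (c' i) x) - f (ev (c i) x))) / ((fam q m φ).card : ℝ) := by
      funext x
      unfold Tf
      rw [← add_div, ← Finset.sum_add_distrib]
      congr 1
      refine Finset.sum_congr rfl (fun i _ => ?_)
      ring
    have hmink := hL2T.1 (Tf q m φ c f) _ hTM hAvM
    rw [← hsplit] at hmink
    have hT : nsq (Tf q m φ c f) ≤ lam ^ 2 * nsq f := hFG f hPA hSu hEs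
    have hs1 : √(nsq (Tf q m φ c f)) ≤ lam * √(nsq f) := by
      refine (Real.sqrt_le_sqrt hT).trans ?_
      rw [Real.sqrt_mul (sq_nonneg _), Real.sqrt_sq hlam]
    have hs2 : √(nsq (fun x => (∑ i ∈ fam q m φ, (f (ev (c' i) x) - f (ev (c i) x))) / ((fam q m φ).card : ℝ))) ≤
        K * √η * √(nsq f) := by
      refine (Real.sqrt_le_sqrt hAv).trans ?_
      rw [Real.sqrt_mul (mul_nonneg hK0 hη), Real.sqrt_mul hK0]
      have hKs : √K ≤ K := by
        rw [Real.sqrt_le_left hK0]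
        nlinarith
      exact mul_le_mul_of_nonneg_right (mul_le_mul_of_nonneg_right hKs (Real.sqrt_nonneg _)) (Real.sqrt_nonneg _)
    have hs3 : √(nsq (Tf q m φ c' f)) ≤ (lam + K * √η) * √(nsq f) := by
      calc √(nsq (Tf q m φ c' f)) ≤ _ := hmink
        _ ≤ lam * √(nsq f) + K * √η * √(nsq f) := add_le_add hs1 hs2
        _ = (lam + K * √η) * √(nsq f) := by ring
    have h1 : nsq (Tf q m φ c' f) = √(nsq (Tf q m φ c' f)) ^ 2 := (Real.sq_sqrt (gPERT_nsq_nonneg _)).symm
    have h2 : nsq f = √(nsq f) ^ 2 := (Real.sq_sqrt hn0).symm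
    calc nsq (Tf q m φ c' f) = √(nsq (Tf q m φ c' f)) ^ 2 := h1
      _ ≤ ((lam + K * √η) * √(nsq f)) ^ 2 := pow_le_pow_left₀ (Real.sqrt_nonneg _) hs3 2
      _ = (lam + K * √η) ^ 2 * √(nsq f) ^ 2 := by ring
      _ = (lam + K * √η) ^ 2 * nsq f := by rw [← h2]

end Pool.Agent.helper90.DH
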